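import Pool.Agent.Work.MP_c9932b_sb.Interface

set_option autoImplicit false

namespace Pool.SBM.helper83

open Pool.SBM Finset

theorem stmt_CRT (hD : Stmt_DIV) : Stmt_CRT := by
  intro n
  refine ⟨(1 + n * n.factorial) ^ n + n.factorial, ?_⟩
  intro R _ _ _ hI q a hq ha
  set d : R := (n.factorial : R) * q with hd
  have hq0 : 0 < q := lt_of_lt_of_le zero_lt_one hq
  have hf : (1 : R) ≤ (n.factorial : R) := by
    exact_mod_cast Nat.one_le_iff_ne_zero.mpr (Nat.factorial_ne_zero n)
  have hd1 : q ≤ d := by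
    rw [hd]
    nlinarith
  have hd0 : 0 < d := lt_of_lt_of_le hq0 hd1
  set m : Fin n → R := fun j => 1 + (((j : ℕ) : R) + 1) * d with hm
  have hm1 : ∀ j, q < m j := by
    intro j
    have : (0 : R) ≤ ((j : ℕ) : R) := Nat.cast_nonneg _
    simp only [hm]
    nlinarith
  have hmpos : ∀ j, 0 < m j := fun j => lt_trans hq0 (hm1 j)
  -- coprimality
  have hcop0 : ∀ i j : Fin n, (i : ℕ) < (j : ℕ) → IsCoprime (m i) (m j) := by
    intro i j hij
    obtain ⟨e, he⟩ : ((j : ℕ) - (i : ℕ)) ∣ n.factorial := by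
      apply Nat.dvd_factorial (by omega)
      have := j.isLt
      omega
    have he' : (n.factorial : R) = (((j : ℕ) : R) - ((i : ℕ) : R)) * (e : R) := by
      rw [he]
      push_cast [Nat.cast_sub hij.le]
      ring
    refine ⟨1 - (((i : ℕ) : R) + 1) * (e * q) * (((j : ℕ) : R) + 1),
      (((i : ℕ) : R) + 1) * (e * q) * (((i : ℕ) : R) + 1), ?_⟩
    simp only [hm, hd]
    rw [he']
    ring
  have hcop : ∀ i j : Fin n, i ≠ j → IsCoprime (m i) (m j) := by
    intro i j hij
    rcases lt_or_gt_of_ne (fun h => hij (Fin.ext h) : (i : ℕ) ≠ (j : ℕ)) with h | h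
    · exact hcop0 i j h
    · exact (hcop0 j i h).symm
  -- existence
  have hex : ∀ s : Finset (Fin n), ∃ c : R, ∀ j ∈ s, m j ∣ c - a j := by
    intro s
    induction s using Finset.induction_on with
    | empty => exact ⟨0, fun j hj => absurd hj (by simp)⟩
    | insert j s hj ih =>
      obtain ⟨c, hc⟩ := ih
      have hcp : IsCoprime (∏ i ∈ s, m i) (m j) := by
        apply IsCoprime.prod_left
        intro i hi
        exact hcop i j (fun h => hj (h ▸ hi))
      obtain ⟨u, v, huv⟩ := hcp
      -- c' = c + (a j - c) * u * prod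
      refine ⟨c + (a j - c) * (u * ∏ i ∈ s, m i), ?_⟩
      intro i hi
      rw [Finset.mem_insert] at hi
      rcases hi with rfl | hi
      · refine ⟨-(a i - c) * v, ?_⟩
        have : u * ∏ i ∈ s, m i = 1 - v * m i := by rw [← huv]; ring
        rw [this]
        ring
      · obtain ⟨k, hk⟩ := hc i hi
        obtain ⟨l, hl⟩ := Finset.dvd_prod_of_mem m hi
        refine ⟨k + (a j - c) * u * l, ?_⟩
        rw [hl]
        linear_combination hk
  obtain ⟨c0, hc0⟩ := hex univ
  set PP : R := ∏ j, m j with hPP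
  have hPP1 : 1 ≤ PP := by
    rw [hPP]
    exact Finset.prod_induction _ (fun x : R => 1 ≤ x)
      (fun x y hx hy => one_le_mul_of_one_le_of_one_le hx hy) le_rfl
      (fun j _ => le_trans hq (hm1 j).le)
  have hPPpos : 0 < PP := lt_of_lt_of_le zero_lt_one hPP1
  obtain ⟨Q, c, hQ0, hQ1, hc1, hc2, hc3⟩ := hD R hI (c0 + |c0| * PP) PP (by
    have h1 := neg_abs_le c0
    have h2 : |c0| * 1 ≤ |c0| * PP := mul_le_mul_of_nonneg_left hPP1 (abs_nonneg _)
    linarith) hPPpos
  have hdvd : ∀ j, m j ∣ c - a j := by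
    intro j
    obtain ⟨k, hk⟩ := hc0 j (mem_univ j)
    obtain ⟨l, hl⟩ := Finset.dvd_prod_of_mem m (mem_univ j)
    refine ⟨k + |c0| * l - Q * l, ?_⟩
    have e1 : c = c0 + |c0| * PP - PP * Q := by rw [hc3]; ring
    have e2 : PP = m j * l := hl
    rw [e1, e2]
    linear_combination hk
  -- bound
  have hmle : ∀ j, m j ≤ (1 + n * n.factorial : R) * q := by
    intro j
    have h1 : ((j : ℕ) : R) + 1 ≤ n := by exact_mod_cast j.isLt
    simp only [hm, hd]
    calc 1 + (((j : ℕ) : R) + 1) * ((n.factorial : R) * q)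
        ≤ q + (n : R) * ((n.factorial : R) * q) := by
          apply add_le_add hq
          apply mul_le_mul_of_nonneg_right h1
          positivity
      _ = (1 + n * n.factorial : R) * q := by ring
  have hPPle : PP ≤ ((1 + n * n.factorial : R)) ^ n * q ^ n := by
    rw [hPP, ← mul_pow]
    calc ∏ j, m j ≤ ∏ _j : Fin n, (1 + n * n.factorial : R) * q :=
          Finset.prod_le_prod (fun j _ => (hmpos j).le) (fun j _ => hmle j)
      _ = ((1 + n * n.factorial : R) * q) ^ n := by
          rw [Finset.prod_const, Finset.card_univ, Fintype.card_fin]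
  have hqn : 0 < q ^ n := pow_pos hq0 n
  refine ⟨c, d, hc1, hd0.le, ?_, ?_, ?_⟩
  · push_cast
    have h1 : 0 ≤ (n.factorial : R) * q ^ n := by positivity
    calc c ≤ PP := hc2.le
      _ ≤ ((1 + n * n.factorial : R)) ^ n * q ^ n := hPPle
      _ ≤ ((1 + n * n.factorial : R)) ^ n * q ^ n + (n.factorial : R) * q ^ n := by linarith
      _ = ((1 + (n : R) * (n.factorial : R)) ^ n + (n.factorial : R)) * q ^ n := by ring
  · push_cast
    have h1 : 0 ≤ ((1 + (n : R) * (n.factorial : R)) ^ n) * q := by positivity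
    rw [hd]
    calc (n.factorial : R) * q ≤ ((1 + (n : R) * (n.factorial : R)) ^ n) * q +
          (n.factorial : R) * q := by linarith
      _ = ((1 + (n : R) * (n.factorial : R)) ^ n + (n.factorial : R)) * q := by ring
  · intro j
    obtain ⟨u, hu⟩ := hdvd j
    have hj0 : (0 : R) ≤ ((j : ℕ) : R) := Nat.cast_nonneg _
    have hmj : m j = 1 + (((j : ℕ) : R) + 1) * d := rfl
    have hu0 : 0 ≤ u := by
      by_contra hneg
      push Not at hneg
      have h1 : 1 ≤ -u := hI.disc (-u) (by linarith)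
      have h2 : m j * 1 ≤ m j * (-u) := mul_le_mul_of_nonneg_left h1 (hmpos j).le
      have h3 := (ha j).2
      have h4 := hm1 j
      have h5 : m j * (-u) = -(c - a j) := by rw [hu]; ring
      linarith
    refine ⟨?_, u, hu0, ?_, ?_⟩
    · have h3 := (ha j).2
      nlinarith
    · have h1 : u * 1 ≤ u * m j := by
        apply mul_le_mul_of_nonneg_left _ hu0
        exact le_trans hq (hm1 j).le
      have h2 := (ha j).1
      have h3 : u * m j = c - a j := by rw [hu]; ring
      linarith
    · rw [← hmj]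
      linear_combination hu

end Pool.SBM.helper83
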