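import Pool.Agent.Work.MP_c9932b_sb.Interface

set_option autoImplicit false

namespace Pool.SBM.helper83

open Pool.SBM

theorem lv_nonneg {R : Type} [CommRing R] [LinearOrder R] [IsStrictOrderedRing R] (l : List R)
    (hl : ∀ a ∈ l, 0 ≤ a) : ∀ i, 0 ≤ lv l i := by
  intro i
  unfold lv
  rw [List.getD_eq_getElem?_getD]
  by_cases h : i < l.length
  · rw [List.getElem?_eq_getElem h]
    exact hl _ (List.getElem_mem h)
  · rw [List.getElem?_eq_none (not_lt.mp h)]
    exact le_refl _

theorem stmt_DIV (hM : Stmt_MAX) : Stmt_DIV := by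
  intro R _ _ _ hI a b ha hb
  have hb1 : 1 ≤ b := hI.disc b hb
  have hev : ∀ q : R, (D0.le (.mul (.var 1) (.var 0)) (.var 2)).eval (push q (lv [b, a])) ↔
      b * q ≤ a := by
    intro q
    simp only [D0.eval_le, Tm.eval_mul, Tm.eval_var, push_one', push_zero', push_ofNat]
    rfl
  obtain ⟨q, hq0, hq1, hq2⟩ := hM R hI (D0.le (.mul (.var 1) (.var 0)) (.var 2)) (lv [b, a]) a
    (lv_nonneg _ (by
      intro x hx
      simp only [List.mem_cons, List.not_mem_nil, or_false] at hx
      rcases hx with rfl | rfl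
      · linarith
      · exact ha))
    ⟨0, le_rfl, by rw [hev]; simpa using ha⟩
    (fun q hq hq' => by
      rw [hev] at hq'
      nlinarith)
  rw [hev] at hq1
  refine ⟨q, a - b * q, hq0, by nlinarith, by linarith, ?_, by ring⟩
  by_contra hcon
  push Not at hcon
  have := hq2 (q + 1) (by linarith) (by rw [hev]; nlinarith)
  linarith

end Pool.SBM.helper83
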