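import Pool.Agent.Work.MP_c9932b_sb.Interface

set_option autoImplicit false

namespace Pool.SBM.helper83

open Pool.SBM

/-- substitution: `b, a, v` seen as `b, v` -/
def sg1 : ℕ → Tm
  | 0 => .var 0
  | i + 1 => .var (i + 2)

theorem sg1_eval {R : Type} [CommRing R] (a b : R) (v : ℕ → R) :
    (fun i => (sg1 i).eval (push b (push a v))) = push b v := by
  funext i
  cases i with
  | zero => rfl
  | succ i => rfl

theorem stmt_LNP : Stmt_LNP := by
  intro R _ _ _ hI φ v hv hex
  by_contra hcon
  push Not at hcon
  obtain ⟨a0, ha0, h0⟩ := hex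
  have hall : ∀ a : R, 0 ≤ a →
      (D0.ball (.var 0) (.neg (φ.subst sg1))).eval (push a v) := by
    apply hI.ind _ v hv
    · intro b hb hb0
      simp only [Tm.eval_var, push_zero'] at hb0
      have hb' : b = 0 := le_antisymm hb0 hb
      subst hb'
      simp only [D0.eval_neg, D0.eval_subst, sg1_eval]
      intro hφ
      obtain ⟨c, hc, hc2, _⟩ := hcon 0 le_rfl hφ
      exact absurd hc2 (not_lt.mpr hc)
    · intro a ha hIH b hb hba
      simp only [Tm.eval_var, push_zero'] at hba
      simp only [D0.eval_neg, D0.eval_subst, sg1_eval]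
      have hIH' : ∀ b : R, 0 ≤ b → b ≤ a → ¬ φ.eval (push b v) := by
        intro b hb hb2
        have := hIH b hb (by simpa using hb2)
        simp only [D0.eval_neg, D0.eval_subst, sg1_eval] at this
        exact this
      rcases le_or_gt b a with h | h
      · exact hIH' b hb h
      · intro hφ
        obtain ⟨c, hc, hc2, hc3⟩ := hcon b hb hφ
        have h1 : 1 ≤ b - c := hI.disc _ (sub_pos.mpr hc2)
        exact hIH' c hc (by linarith) hc3
  have := hall a0 ha0 a0 ha0 (by simp)
  simp only [D0.eval_neg, D0.eval_subst, sg1_eval] at this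
  exact this h0

end Pool.SBM.helper83
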