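import Pool.Agent.Work.MP_c9932b_sb.Interface

set_option autoImplicit false

namespace Pool.SBM.helper83

open Pool.SBM

/-- substitution: `b, m, M, v` seen as `b, v` -/
def sg2 : ℕ → Tm
  | 0 => .var 0
  | i + 1 => .var (i + 3)

theorem sg2_eval {R : Type} [CommRing R] (a b c : R) (v : ℕ → R) :
    (fun i => (sg2 i).eval (push b (push a (push c v)))) = push b v := by
  funext i
  cases i with
  | zero => rfl
  | succ i => rfl

theorem stmt_MAX (hL : Stmt_LNP) : Stmt_MAX := by
  intro R _ _ _ hI φ v M hv hex hM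
  obtain ⟨a0, ha0, h0⟩ := hex
  have hM0 : 0 ≤ M := le_trans ha0 (hM a0 ha0 h0)
  set ψ : D0 := D0.ball (.var 1) (.imp (φ.subst sg2) (.le (.var 0) (.var 1))) with hψ
  have hev : ∀ m : R, ψ.eval (push m (push M v)) ↔
      ∀ b : R, 0 ≤ b → b ≤ M → φ.eval (push b v) → b ≤ m := by
    intro m
    simp only [hψ, D0.eval_ball, Tm.eval_var, push_one', push_zero', D0.eval_imp, D0.eval_subst,
      sg2_eval, D0.eval_le]
  obtain ⟨m, hm0, hm1, hm2⟩ := hL R hI ψ (push M v) (push_nonneg hM0 hv)
    ⟨M, hM0, (hev M).mpr fun b _ hb _ => hb⟩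
  rw [hev] at hm1
  have hle : ∀ b : R, 0 ≤ b → φ.eval (push b v) → b ≤ m := fun b hb hφ =>
    hm1 b hb (hM b hb hφ) hφ
  refine ⟨m, hm0, ?_, hle⟩
  rcases hm0.lt_or_eq with h | h
  · have h1 : 1 ≤ m := hI.disc m h
    have h2 := hm2 (m - 1) (by linarith) (by linarith)
    rw [hev] at h2
    push Not at h2
    obtain ⟨b, hb, _, hb2, hb3⟩ := h2
    have h3 := hle b hb hb2
    have h4 : b = m := by
      rcases h3.lt_or_eq with h5 | h5
      · have := hI.disc (m - b) (sub_pos.mpr h5)
        exfalso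
        linarith
      · exact h5
    rw [← h4]
    exact hb2
  · have h5 : a0 = m := by
      have := hle a0 ha0 h0
      rw [← h] at this ⊢
      exact le_antisymm this ha0
    rw [← h5]
    exact h0

end Pool.SBM.helper83
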