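import Pool.Agent.Work.MP_c9932b_sb.Interface

set_option autoImplicit false

namespace Pool.SBM.helper83

open Pool.SBM

theorem stmt_ROOT (hM : Stmt_MAX) : Stmt_ROOT := by
  intro R _ _ _ hI κ t hκ ht
  have hev : ∀ b : R, (D0.and (.le .one (.var 0)) (.le ((Tm.var 0).pow κ) (.var 1))).eval
      (push b (lv [t])) ↔ 1 ≤ b ∧ b ^ κ ≤ t := by
    intro b
    simp only [D0.eval_and, D0.eval_le, Tm.eval_pow, Tm.eval_var, push_one', push_zero',
      Tm.eval_one]
    rfl
  obtain ⟨b, hb0, hb1, hb2⟩ := hM R hI (D0.and (.le .one (.var 0)) (.le ((Tm.var 0).pow κ) (.var 1)))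
    (lv [t]) t (by
      intro i
      cases i with
      | zero => exact le_trans zero_le_one ht
      | succ i => exact le_refl _)
    ⟨1, zero_le_one, by rw [hev]; simpa using ht⟩
    (fun b _ hb' => by
      rw [hev] at hb'
      obtain ⟨h1, h2⟩ := hb'
      exact le_trans (le_self_pow₀ h1 (by omega)) h2)
  rw [hev] at hb1
  refine ⟨b, hb1.1, hb1.2, ?_⟩
  by_contra hcon
  push Not at hcon
  have := hb2 (b + 1) (by linarith) (by rw [hev]; exact ⟨by linarith, hcon⟩)
  linarith

end Pool.SBM.helper83
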