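import Pool.Agent.Work.MP_c9932b_sb.Interface

set_option autoImplicit false

namespace Pool.SBM.helper83

open Pool.SBM

theorem stmt_STD : Stmt_STD := by
  intro R _ _ _ hd n
  induction n with
  | zero =>
    intro a ha ha'
    refine ⟨0, le_rfl, ?_⟩
    rw [Nat.cast_zero] at ha' ⊢
    exact le_antisymm ha' ha
  | succ n ih =>
    intro a ha ha'
    rcases le_or_gt a (n : R) with h | h
    · obtain ⟨k, hk, hk2⟩ := ih a ha h
      exact ⟨k, by omega, hk2⟩
    · refine ⟨n + 1, le_rfl, ?_⟩
      have h1 := hd (a - n) (sub_pos.mpr h)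
      push_cast at ha' ⊢
      linarith

end Pool.SBM.helper83
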